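import Pool.Agent.H32.QC.TargetsL

/-!
# Units at odd places
-/

set_option autoImplicit false

open NumberField IsDedekindDomain Pool.Agent.H32.QC

namespace Pool.Agent.H70.QCL

open scoped NormedField Valued

theorem unr_sq (hHEN : T_HEN) (K : Type) [NontriviallyNormedField K] [IsUltrametricDist K]
    [CompleteSpace K] [CharZero K] (h2 : ‖(2 : K)‖ = 1) (u : K) (hu : ‖u - 1‖ < 1) :
    IsSquare u := by
  by_cases h1 : u = 1
  · rw [h1]; exact IsSquare.one
  have hc : u - 1 ≠ 0 := sub_ne_zero.mpr h1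
  have h := hHEN K (u - 1) hc (by rw [h2]; exact hu)
  have hn : ‖u‖ = 1 := by
    have h3 := IsUltrametricDist.norm_add_eq_max_of_norm_ne_norm (x := u - 1) (y := (1 : K))
      (by rw [norm_one]; exact hu.ne)
    rw [sub_add_cancel, norm_one, max_eq_right hu.le] at h3
    exact h3
  have hu0 : u ≠ 0 := by
    intro h
    rw [h] at hn
    simp at hn
  have hm : Units.mk0 u hu0 ∈ Un K (2 * (u - 1)) := by
    refine ⟨?_, ?_⟩ <;> simp [norm_mul, h2, hn]
  rw [← h] at hm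
  obtain ⟨w, -, hw⟩ := hm
  refine ⟨(w : K), ?_⟩
  have h4 := congrArg Units.val hw
  simp only [powMonoidHom_apply, Units.val_pow_eq_pow_val, Units.val_mk0] at h4
  rw [← h4]
  ring

theorem unr_rep (K : Type) [NontriviallyNormedField K] [IsUltrametricDist K]
    [ProperSpace K] (h2 : ‖(2 : K)‖ = 1) (a b : K) (ha : ‖a‖ = 1) (hb : ‖b‖ = 1) :
    ∃ x y : K, ‖a * x ^ 2 + b * y ^ 2 - 1‖ < 1 := by
  have hcs : CompactSpace 𝒪[K] := by
    refine isCompact_iff_compactSpace.mp ?_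
    have h3 : ((𝒪[K] : Subring K) : Set K) = Metric.closedBall 0 1 := by
      ext x
      simp [Valued.integer.mem_iff]
    rw [h3]
    exact isCompact_closedBall 0 1
  letI : (Valued.v : Valuation K NNReal).RankOne :=
    inferInstanceAs (NormedField.valuation (K := K)).RankOne
  have hfin : Finite 𝓀[K] :=
    ((Valued.integer.compactSpace_iff_completeSpace_and_isDiscreteValuationRing_and_finite_residueField).1
      hcs).2.2
  letI := Fintype.ofFinite 𝓀[K]
  have h2m : (2 : K) ∈ 𝒪[K] := Valued.integer.mem_iff.2 h2.le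
  let A : 𝒪[K] := ⟨a, Valued.integer.mem_iff.2 ha.le⟩
  let B : 𝒪[K] := ⟨b, Valued.integer.mem_iff.2 hb.le⟩
  let r : 𝒪[K] →+* 𝓀[K] := IsLocalRing.residue 𝒪[K]
  have hr : ∀ z : 𝒪[K], r z = 0 ↔ ‖(z : K)‖ < 1 := by
    intro z
    rw [IsLocalRing.residue_eq_zero_iff, IsLocalRing.mem_maximalIdeal, mem_nonunits_iff,
      Valued.integer.isUnit_iff_norm_eq_one]
    exact ⟨fun h => lt_of_le_of_ne (Valued.integer.mem_iff.1 z.2) h, fun h => h.ne⟩
  have h2r : (2 : 𝓀[K]) ≠ 0 := by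
    have h4 : r 2 = (2 : 𝓀[K]) := map_ofNat r 2
    rw [← h4, Ne, hr]
    have h5 : ((2 : 𝒪[K]) : K) = 2 := rfl
    rw [h5, h2]
    exact lt_irrefl _
  have hA : r A ≠ 0 := by rw [Ne, hr]; exact not_lt.2 ha.ge
  have hB : r B ≠ 0 := by rw [Ne, hr]; exact not_lt.2 hb.ge
  have hodd : Fintype.card 𝓀[K] % 2 = 1 := by
    refine FiniteField.odd_card_of_char_ne_two ?_
    intro h
    exact h2r (by simpa using (ringChar.spec 𝓀[K] 2).2 (by rw [h]))
  obtain ⟨x, y, hxy⟩ := FiniteField.exists_root_sum_quadratic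
    (f := Polynomial.C (r A) * Polynomial.X ^ 2)
    (g := Polynomial.C (r B) * Polynomial.X ^ 2 - Polynomial.C 1)
    (Polynomial.degree_C_mul_X_pow 2 hA)
    (by
      rw [Polynomial.degree_sub_eq_left_of_degree_lt]
      · exact Polynomial.degree_C_mul_X_pow 2 hB
      · rw [Polynomial.degree_C_mul_X_pow 2 hB, Polynomial.degree_C one_ne_zero]
        norm_num) hodd
  obtain ⟨X, rfl⟩ := IsLocalRing.residue_surjective (R := 𝒪[K]) x
  obtain ⟨Y, rfl⟩ := IsLocalRing.residue_surjective (R := 𝒪[K]) y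
  refine ⟨X, Y, ?_⟩
  have h6 : r (A * X ^ 2 + B * Y ^ 2 - 1) = 0 := by
    simp only [Polynomial.eval_mul, Polynomial.eval_sub, Polynomial.eval_C, Polynomial.eval_pow,
      Polynomial.eval_X] at hxy
    rw [map_sub, map_add, map_mul, map_mul, map_pow, map_pow, map_one]
    rw [← hxy]
    ring
  exact (hr _).1 h6

theorem unr_one (hHEN : T_HEN) (K : Type) [NontriviallyNormedField K] [IsUltrametricDist K]
    [ProperSpace K] [CharZero K] (h2 : ‖(2 : K)‖ = 1) (a b : K) (ha : ‖a‖ = 1)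
    (hb : ‖b‖ = 1) : ∃ x y z : K, z ≠ 0 ∧ z ^ 2 = a * x ^ 2 + b * y ^ 2 := by
  obtain ⟨x, y, h⟩ := unr_rep K h2 a b ha hb
  obtain ⟨z, hz⟩ := unr_sq hHEN K h2 _ h
  refine ⟨x, y, z, ?_, by rw [hz]; ring⟩
  rintro rfl
  rw [hz] at h
  simp at h

theorem pf_UNR (hHEN : T_HEN) : T_UNR := by
  intro K _ _ _ _ h2
  refine ⟨?_, ?_, ?_⟩
  · intro a b ha hb
    obtain ⟨x, y, z, hz, h⟩ := unr_one hHEN K h2 a b ha hb
    exact ⟨x, y, z, Or.inr (Or.inr hz), h⟩
  · rintro a b c ha hb ⟨d, hd⟩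
    by_cases hc : c = 0
    · exact ⟨0, 1, 0, Or.inr (Or.inl one_ne_zero), by rw [hc]; ring⟩
    have hd0 : d ≠ 0 := by
      rintro rfl
      rw [norm_zero] at hd
      exact hc (norm_eq_zero.1 (by rw [hd]; norm_num))
    have hdn : ‖d‖ ≠ 0 := norm_ne_zero_iff.2 hd0
    obtain ⟨x, y, z, hz, h⟩ := unr_one hHEN K h2 a (b * (c / d ^ 2)) ha (by
      rw [norm_mul, hb, norm_div, norm_pow, hd, one_mul]
      exact div_self (pow_ne_zero 2 hdn))
    refine ⟨x, y / d, z, Or.inr (Or.inr hz), ?_⟩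
    rw [h]
    field_simp
  · intro a ha
    have h0 : ∀ i, a i ≠ 0 := fun i h => by
      have := ha i
      rw [h, norm_zero] at this
      exact zero_ne_one this
    obtain ⟨x, y, z, hz, h⟩ := unr_one hHEN K h2 (-a 0 / a 2) (-a 1 / a 2)
      (by rw [norm_div, norm_neg, ha, ha, div_one]) (by rw [norm_div, norm_neg, ha, ha, div_one])
    refine ⟨![x, y, z], fun hv => hz (by simpa using congrFun hv 2), ?_⟩
    rw [Fin.sum_univ_three]
    simp only [Matrix.cons_val_zero, Matrix.cons_val_one, Matrix.cons_val]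
    rw [h]
    have h22 := h0 2
    field_simp
    ring

end Pool.Agent.H70.QCL
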